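import Pool.Agent.P.MP_9167e9_an.StA

/-!
PROB, combinatorics of addresses: hidden coordinates, independence and the counting bound.
-/

noncomputable section
open scoped Classical

namespace Pool.Agent.P.MP_9167e9_an.Prob

variable {j D ρ : ℕ}

theorem core_tail {t : List (AL j D) → Fin j → ZMod D} {a : AL j D} {w : List (AL j D)}
    (h : IsCore t (a :: w)) : IsCore t w := by
  obtain ⟨i, _ | b⟩ := a
  · exact h
  · exact h.1

theorem core_suffix {t : List (AL j D) → Fin j → ZMod D} {w z : List (AL j D)} (h : IsCore t z)
    (hw : w <:+ z) : IsCore t w := by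
  obtain ⟨y, rfl⟩ := hw
  induction y with
  | nil => exact h
  | cons a y ih => exact ih (core_tail h)

theorem core_congr {t t' : List (AL j D) → Fin j → ZMod D} :
    ∀ z : List (AL j D), (∀ w a i, a :: w <:+ z → t w i = t' w i) → (IsCore t z ↔ IsCore t' z)
  | [], _ => Iff.rfl
  | (i, none) :: w, h =>
      core_congr w fun w' a i' hw => h w' a i' (hw.trans (List.suffix_cons _ _))
  | (i, some b) :: w, h => by
      have h1 := core_congr (t := t) (t' := t') w
        fun w' a i' hw => h w' a i' (hw.trans (List.suffix_cons _ _))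
      have h2 := h w (i, some b) i (List.suffix_refl _)
      simp only [IsCore, h1, h2]

theorem root_suffix (t : List (AL j D) → Fin j → ZMod D) : ∀ w, root t w <:+ w
  | [] => List.suffix_refl _
  | a :: w => by
      rw [root]
      split_ifs
      · exact List.suffix_refl _
      · exact (root_suffix t w).trans (List.suffix_cons _ _)

theorem root_core (t : List (AL j D) → Fin j → ZMod D) : ∀ w, IsCore t (root t w)
  | [] => trivial
  | a :: w => by
      rw [root]
      split_ifs with h
      · exact h
      · exact root_core t w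

theorem root_max (t : List (AL j D) → Fin j → ZMod D) {z : List (AL j D)} (hz : IsCore t z) :
    ∀ w, z <:+ w → z <:+ root t w
  | [], h => h
  | a :: w, h => by
      rw [root]
      split_ifs with hc
      · exact h
      · rcases List.suffix_cons_iff.1 h with rfl | h
        · exact absurd hz hc
        · exact root_max t hz w h

theorem root_congr {t t' : List (AL j D) → Fin j → ZMod D} :
    ∀ w : List (AL j D), (∀ z, z <:+ w → (IsCore t z ↔ IsCore t' z)) → root t w = root t' w
  | [], _ => rfl
  | a :: w, h => by
      rw [root, root, root_congr w fun z hz => h z (hz.trans (List.suffix_cons _ _))]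
      simp only [h _ (List.suffix_refl _)]

theorem sl_suffix {w z : List (AL j D)} (h : w <:+ z) : sl w <:+ sl z := h.map _

theorem suffix_eq {A : Type} {x y z : List A} (hx : x <:+ z) (hy : y <:+ z)
    (h : x.length = y.length) : x = y :=
  (List.suffix_of_suffix_length_le hx hy h.le).eq_of_length h

/-- The two labellings agree outside the hidden coordinates of the index `v`. -/
def Rel (v : List (Lt j)) (t t' : Om j D ρ) : Prop :=
  ∀ w i, ¬ (w.1.head? ≠ some (i, none) ∧ v <:+ sl w.1) → t (w, i) = t' (w, i)

theorem Rel.symm {v : List (Lt j)} {t t' : Om j D ρ} (h : Rel v t t') : Rel v t' t :=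
  fun w i hw => (h w i hw).symm

theorem Rel.vis {v : List (Lt j)} {t t' : Om j D ρ} (h : Rel v t t') : VisEq t t' :=
  fun w i hw => h w i fun hn => hn.1 hw

theorem Rel.ext_eq {v : List (Lt j)} {t t' : Om j D ρ} (h : Rel v t t') {w : List (AL j D)}
    (hw : ¬ v <:+ sl w) (i : Fin j) : ext t w i = ext t' w i := by
  unfold ext
  split_ifs with hv
  · exact h ⟨w, hv⟩ i fun hn => hw hn.2
  · rfl

theorem left_inv {v v0 : List (Lt j)} {l : Option (Lt j)} {t t' : Om j D ρ} (h : Rel v t t')
    (hv : v ≠ []) (hred : FreeGroup.IsReduced (v ++ l.toList)) (hl : v0.head? = l)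
    {w : List (AL j D)} (hw : sl (root (ext t) w) = FreeGroup.invRev v0) :
    root (ext t') w = root (ext t) w := by
  refine (root_congr w fun z hz => ?_).symm
  cases v0 with
  | nil =>
    have h0 : root (ext t) w = [] := by simpa [sl] using hw
    rcases List.eq_nil_or_concat' z with rfl | ⟨y, a, rfl⟩
    · exact Iff.rfl
    · have hs : [a] <:+ y ++ [a] := List.suffix_append _ _
      have n1 : ¬ IsCore (ext t) [a] := fun hc => by
        have := root_max _ hc w (hs.trans hz)
        rw [h0] at this
        simp at this
      have e : IsCore (ext t) [a] ↔ IsCore (ext t') [a] := core_congr _ fun w' b i hb => by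
        have : w' = [] := by
          have := hb.length_le
          simpa using this
        subst this
        exact h.ext_eq (by simpa [sl] using hv) i
      exact iff_of_false (fun hc => n1 (core_suffix hc hs))
        fun hc => n1 (e.2 (core_suffix hc hs))
  | cons l0 v1 =>
    refine core_congr _ fun w' b i hb => h.ext_eq (fun hs => ?_) i
    obtain rfl : l = some l0 := hl.symm
    have s1 : [(l0.1, !l0.2)] <:+ sl w := by
      refine List.IsSuffix.trans ?_ (sl_suffix (root_suffix (ext t) w))
      rw [hw, FreeGroup.invRev_cons]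
      exact List.suffix_append _ _
    obtain ⟨y, x, rfl⟩ := (List.eq_nil_or_concat' v).resolve_left hv
    have s2 : [x] <:+ sl w := ((List.suffix_append _ _).trans hs).trans
      (sl_suffix (((List.suffix_cons _ _).trans hb).trans hz))
    have e := suffix_eq s1 s2 rfl
    simp only [List.cons.injEq, and_true] at e
    subst e
    simp [FreeGroup.IsReduced, List.isChain_append] at hred

/-- The enlarged right set. -/
def Bpl (t : Om j D ρ) (n : ℕ) (v : List (Lt j)) (w : List (AL j D)) : Prop :=
  ∃ zu zv, zu ++ zv <:+ w ∧ sl zv = v ∧ zu.length = n ∧ 0 ≤ hts (sl zu) ∧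
    IsCore (ext t) (zu ++ zv)

theorem Bpl_of {t : Om j D ρ} {n : ℕ} {v u' y : List (Lt j)} {w : List (AL j D)}
    (hn : u'.length = n) (hh : 0 ≤ hts u') (h : sl (root (ext t) w) = y ++ u' ++ v) :
    Bpl t n v w := by
  rw [sl, List.map_eq_append_iff] at h
  obtain ⟨z1, zv, h1, h2, h3⟩ := h
  rw [List.map_eq_append_iff] at h2
  obtain ⟨zy, zu, rfl, -, h4⟩ := h2
  have hs : zu ++ zv <:+ root (ext t) w := by
    rw [h1, List.append_assoc]
    exact List.suffix_append _ _
  refine ⟨zu, zv, hs.trans (root_suffix _ _), h3, ?_, ?_, core_suffix (root_core _ _) hs⟩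
  · rw [← hn, ← h4, List.length_map]
  · rw [sl, h4]; exact hh

theorem Bpl_congr {t t' : Om j D ρ} {n : ℕ} {v v' : List (Lt j)} (h : Rel v t t') (hne : v ≠ v')
    (hl : v.length = v'.length) {w : List (AL j D)} (hb : Bpl t n v' w) : Bpl t' n v' w := by
  obtain ⟨zu, zv, h1, h2, h3, h4, h5⟩ := hb
  refine ⟨zu, zv, h1, h2, h3, h4, (core_congr _ fun w' b i hb => h.ext_eq (fun hs => ?_) i).1 h5⟩
  refine hne (suffix_eq (hs.trans (sl_suffix ((List.suffix_cons _ _).trans hb))) ?_ hl)
  rw [← h2]
  exact sl_suffix (List.suffix_append _ _)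

theorem one_coord {K A : Type} [Fintype (K → A)] [Fintype A] (x : K) (b : A) (g : (K → A) → ℝ)
    (hg : ∀ t t', (∀ y, y ≠ x → t y = t' y) → g t = g t') :
    (Fintype.card A : ℝ) * ∑ t, (if t x = b then g t else 0) = ∑ t, g t := by
  have h1 : ∀ a, ∑ t, (if t x = a then g t else 0) = ∑ t, (if t x = b then g t else 0) := by
    intro a
    rw [← Finset.sum_filter, ← Finset.sum_filter]
    refine Finset.sum_nbij' (fun t => Function.update t x b) (fun t => Function.update t x a)
      (by simp) (by simp) ?_ ?_ fun t _ => hg _ _ fun y hy => (Function.update_of_ne hy _ _).symm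
    · intro t ht
      rw [Function.update_idem, ← (Finset.mem_filter.1 ht).2, Function.update_eq_self]
    · intro t ht
      rw [Function.update_idem, ← (Finset.mem_filter.1 ht).2, Function.update_eq_self]
  have h2 : ∑ t, g t = ∑ t : K → A, ∑ a, (if t x = a then g t else 0) := by simp
  rw [h2, Finset.sum_comm, Finset.sum_congr rfl fun a _ => h1 a, Finset.sum_const,
    Finset.card_univ, nsmul_eq_mul]

theorem AV_suffix {w z : List (AL j D)} (h : AV ρ z) (hw : w <:+ z) : AV ρ w :=
  ⟨h.1.suffix hw, hw.length_le.trans h.2⟩

theorem core_count [NeZero D] [Fintype (Om j D ρ)] (zv : List (AL j D)) (f : Om j D ρ → ℝ)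
    (f0 : ∀ t, 0 ≤ f t) (hf : ∀ t t', Rel (sl zv) t t' → f t = f t') :
    ∀ zu : List (AL j D), AV ρ (zu ++ zv) → (D : ℝ) ^ (zu.countP fun a => a.2.isSome) *
      ∑ t, (if IsCore (ext t) (zu ++ zv) then f t else 0) ≤ ∑ t, f t
  | [], _ => by
      simp only [List.countP_nil, pow_zero, one_mul]
      exact Finset.sum_le_sum fun t _ => by split_ifs <;> simp [f0 t]
  | (i, none) :: zu, h => by
      simpa [IsCore] using core_count zv f f0 hf zu (AV_suffix h (List.suffix_cons _ _))
  | (i, some b) :: zu, h => by
      have hw : AV ρ (zu ++ zv) := AV_suffix h (List.suffix_cons _ _)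
      have ih := core_count zv f f0 hf zu hw
      by_cases hh : (zu ++ zv).head? = some (i, none)
      · simp only [List.cons_append, IsCore, hh, ne_eq, not_true, false_and, and_false, if_false,
          Finset.sum_const_zero, mul_zero]
        exact Finset.sum_nonneg fun t _ => f0 t
      · have key := one_coord (K := {w : List (AL j D) // AV ρ w} × Fin j) (⟨_, hw⟩, i) b
          (fun t => if IsCore (ext t) (zu ++ zv) then f t else 0) (by
            intro t t' htt
            have r1 : Rel (sl zv) t t' := by
              intro w' i' hn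
              refine htt _ fun he => hn ?_
              obtain ⟨rfl, rfl⟩ := Prod.mk.inj he
              exact ⟨hh, sl_suffix (List.suffix_append _ _)⟩
            have r2 : IsCore (ext t) (zu ++ zv) ↔
                IsCore (ext t') (zu ++ zv) := core_congr _ fun w' c i' hc => by
              unfold ext
              split_ifs with hv
              · refine htt _ fun he => ?_
                have e1 : w' = zu ++ zv := congrArg (fun p => p.1.1) he
                have := hc.length_le
                rw [e1] at this
                simp at this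
              · rfl
            exact if_congr r2 (hf _ _ r1) rfl)
        rw [ZMod.card] at key
        rw [← key] at ih
        refine le_trans (le_of_eq ?_) ih
        simp only [List.countP_cons, Option.isSome_some, if_true, pow_succ, mul_assoc]
        congr 2
        refine Finset.sum_congr rfl fun t _ => ?_
        have e : ext t (zu ++ zv) i = t (⟨_, hw⟩, i) := by rw [ext, dif_pos hw]
        simp only [List.cons_append, IsCore, ne_eq, hh, not_false_eq_true, true_and, e]
        by_cases c2 : t (⟨_, hw⟩, i) = b
        · simp [c2]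
        · simp [c2, Ne.symm c2]

theorem hts_eq (z : List (AL j D)) :
    hts (sl z) + z.length = 2 * (z.countP fun a => a.2.isSome : ℕ) := by
  induction z with
  | nil => simp [hts, sl]
  | cons a z ih =>
    obtain ⟨i, _ | b⟩ := a
    · simp [hts, sl] at ih ⊢; omega
    · simp [hts, sl] at ih ⊢; omega

theorem Bpl_count [NeZero D] [Fintype (Om j D ρ)] (n : ℕ) (v : List (Lt j))
    (P : Om j D ρ → List (AL j D)) (hP : ∀ t t', Rel v t t' → P t = P t') (hV : ∀ t, AV ρ (P t))
    (f : Om j D ρ → ℝ) (f0 : ∀ t, 0 ≤ f t) (hf : ∀ t t', Rel v t t' → f t = f t') :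
    (D : ℝ) ^ ((n + 1) / 2) * ∑ t, (if Bpl t n v (P t) then f t else 0) ≤ ∑ t, f t := by
  have e1 : ∀ g : Om j D ρ → ℝ, ∑ t, g t =
      ∑ z ∈ Finset.univ.image P, ∑ t, (if P t = z then g t else 0) := by
    intro g
    rw [Finset.sum_comm]
    refine Finset.sum_congr rfl fun t _ => ?_
    rw [Finset.sum_ite_eq, if_pos (Finset.mem_image_of_mem _ (Finset.mem_univ t))]
  rw [e1 f, e1 fun t => if Bpl t n v (P t) then f t else 0, Finset.mul_sum]
  refine Finset.sum_le_sum fun z hz => ?_
  obtain ⟨t0, -, rfl⟩ := Finset.mem_image.1 hz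
  have g0 : ∀ t, 0 ≤ (if P t = P t0 then f t else 0) := fun t => by split_ifs <;> simp [f0 t]
  by_cases hex : ∃ zu zv, zu ++ zv <:+ P t0 ∧ sl zv = v ∧ zu.length = n ∧ 0 ≤ hts (sl zu)
  · obtain ⟨zu, zv, h1, rfl, h3, h4⟩ := hex
    have c := core_count zv (fun t => if P t = P t0 then f t else 0) g0
      (fun t t' hr => by simp only [hP t t' hr, hf t t' hr]) zu (AV_suffix (hV t0) h1)
    refine le_trans ?_ c
    have hD : (1 : ℝ) ≤ D := by exact_mod_cast Nat.one_le_iff_ne_zero.2 (NeZero.ne D)
    refine mul_le_mul (pow_le_pow_right₀ hD ?_) (Finset.sum_le_sum fun t _ => ?_)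
      (Finset.sum_nonneg fun t _ => by split_ifs <;> simp [f0 t]) (by positivity)
    · have := hts_eq zu
      omega
    · by_cases c1 : P t = P t0
      · by_cases c2 : Bpl t n (sl zv) (P t)
        · obtain ⟨zu', zv', k1, k2, k3, -, k5⟩ := c2
          have k6 : zv'.length = zv.length := by simpa [sl] using congrArg List.length k2
          have k7 : zu' ++ zv' = zu ++ zv := suffix_eq (c1 ▸ k1) h1 (by simp [k3, k6, h3])
          rw [k7] at k5
          rw [if_pos c1, if_pos k5, if_pos c1]
          split_ifs <;> simp [f0 t]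
        · rw [if_pos c1, if_neg c2]
          split_ifs <;> simp [f0 t]
      · simp [c1]
  · have z0 : ∀ t, (if P t = P t0 then (if Bpl t n v (P t) then f t else 0) else 0) = 0 := by
      intro t
      split_ifs with c1 c2
      · obtain ⟨zu, zv, k1, k2, k3, k4, -⟩ := c2
        exact absurd ⟨zu, zv, c1 ▸ k1, k2, k3, k4⟩ hex
      · rfl
      · rfl
    simp only [z0, Finset.sum_const_zero, mul_zero]
    exact Finset.sum_nonneg fun t _ => g0 t

end Pool.Agent.P.MP_9167e9_an.Prob
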