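import Pool.Agent.P.MP_9167e9_an.Prob.Abs
import Pool.Agent.P.MP_9167e9_an.Prob.Addr

/-!
PROB: the hidden splitting property fails with small probability.
-/

noncomputable section
open scoped Classical InnerProductSpace

namespace Pool.Agent.P.MP_9167e9_an

namespace Prob

section Op

variable {W : Type} [Fintype W]

/-- The operator with kernel `X`, acting from the right. -/
def kop (X : W → W → ℂ) : Module.End ℂ (EuclideanSpace ℂ W) where
  toFun ζ := WithLp.toLp 2 fun u => ∑ w, ζ w * X w u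
  map_add' x y := by ext u; simp [add_mul, Finset.sum_add_distrib]
  map_smul' c x := by ext u; simp [Finset.mul_sum, mul_assoc]

/-- The coordinate projection. -/
def prj (F : Finset W) : Module.End ℂ (EuclideanSpace ℂ W) where
  toFun ζ := WithLp.toLp 2 fun u => if u ∈ F then ζ u else 0
  map_add' x y := by ext u; by_cases h : u ∈ F <;> simp [h]
  map_smul' c x := by ext u; by_cases h : u ∈ F <;> simp [h]

theorem kop_apply (X : W → W → ℂ) (ζ : EuclideanSpace ℂ W) (u : W) :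
    kop X ζ u = ∑ w, ζ w * X w u := rfl

omit [Fintype W] in
theorem prj_apply (F : Finset W) (ζ : EuclideanSpace ℂ W) (u : W) :
    prj F ζ u = if u ∈ F then ζ u else 0 := rfl

theorem prj_sq (F : Finset W) (ζ : EuclideanSpace ℂ W) : ‖prj F ζ‖ ^ 2 = nsq F ζ := by
  rw [EuclideanSpace.norm_sq_eq, nsq]
  rw [← Finset.sum_subset (Finset.subset_univ F) fun u _ hu => by simp [prj_apply, hu]]
  exact Finset.sum_congr rfl fun u hu => by rw [prj_apply, if_pos hu]

theorem prj_norm (F : Finset W) (ζ : EuclideanSpace ℂ W) : ‖prj F ζ‖ = √(nsq F ζ) := by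
  rw [← prj_sq, Real.sqrt_sq (norm_nonneg _)]

theorem nsq_le (F : Finset W) (ζ : EuclideanSpace ℂ W) : nsq F ζ ≤ ‖ζ‖ ^ 2 := by
  rw [EuclideanSpace.norm_sq_eq, nsq]
  exact Finset.sum_le_sum_of_subset_of_nonneg (Finset.subset_univ _) fun _ _ _ => sq_nonneg _

theorem prj_le (F : Finset W) (ζ : EuclideanSpace ℂ W) : ‖prj F ζ‖ ≤ ‖ζ‖ := by
  have := nsq_le F ζ
  rw [← prj_sq] at this
  exact (pow_le_pow_iff_left₀ (norm_nonneg _) (norm_nonneg _) two_ne_zero).1 this

/-- The operator norm of a kernel. -/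
def lam0 (X : W → W → ℂ) : ℝ := ‖LinearMap.toContinuousLinearMap (kop X)‖

theorem kop_le (X : W → W → ℂ) (ζ : EuclideanSpace ℂ W) : ‖kop X ζ‖ ≤ lam0 X * ‖ζ‖ :=
  (LinearMap.toContinuousLinearMap (kop X)).le_opNorm ζ

theorem lam0_le {X : W → W → ℂ} {Λ : ℝ} (h : FB X Λ) (h0 : 0 ≤ Λ) : lam0 X ≤ Λ := by
  refine ContinuousLinearMap.opNorm_le_bound _ h0 fun ζ => ?_
  change ‖kop X ζ‖ ≤ _
  have h1 := h Finset.univ Finset.univ ζ fun u => starRingEnd ℂ (kop X ζ u)
  have e1 : ∑ w, ∑ u, ζ w * X w u * starRingEnd ℂ (kop X ζ u) = ((‖kop X ζ‖ ^ 2 : ℝ) : ℂ) := by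
    rw [Finset.sum_comm, EuclideanSpace.norm_sq_eq, Complex.ofReal_sum]
    refine Finset.sum_congr rfl fun u _ => ?_
    rw [← Finset.sum_mul, ← kop_apply, Complex.mul_conj', Complex.ofReal_pow]
  have e2 : √(nsq Finset.univ ζ) = ‖ζ‖ := by rw [EuclideanSpace.norm_eq, nsq]
  have e3 : √(nsq Finset.univ fun u => starRingEnd ℂ (kop X ζ u)) = ‖kop X ζ‖ := by
    rw [EuclideanSpace.norm_eq, nsq]
    simp
  rw [e1, e2, e3, Complex.norm_real, Real.norm_of_nonneg (sq_nonneg _), sq] at h1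
  rcases (norm_nonneg (kop X ζ)).eq_or_lt with hz | hz
  · rw [← hz]; positivity
  · exact le_of_mul_le_mul_right h1 hz

/-- The normalised operator. -/
def nop (X : W → W → ℂ) : Module.End ℂ (EuclideanSpace ℂ W) := ((lam0 X : ℂ))⁻¹ • kop X

theorem nop_le (X : W → W → ℂ) (ζ : EuclideanSpace ℂ W) : ‖nop X ζ‖ ≤ ‖ζ‖ := by
  have h0 : 0 ≤ lam0 X := norm_nonneg _
  rw [nop, LinearMap.smul_apply, norm_smul, norm_inv, Complex.norm_real, Real.norm_of_nonneg h0]
  rcases h0.eq_or_lt with hz | hz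
  · rw [← hz]; simp
  · rw [inv_mul_le_iff₀ hz]
    exact kop_le X ζ

theorem kop_eq (X : W → W → ℂ) (ζ : EuclideanSpace ℂ W) : kop X ζ = (lam0 X : ℂ) • nop X ζ := by
  rw [nop, LinearMap.smul_apply, smul_smul]
  by_cases hz : lam0 X = 0
  · have := kop_le X ζ
    rw [hz, zero_mul, norm_le_zero_iff] at this
    simp [this]
  · rw [mul_inv_cancel₀ (by exact_mod_cast hz), one_smul]

/-- The damping operator for the corner `F × B` of `X`. -/
def dop (X : W → W → ℂ) (F B : Finset W) (η : ℝ) : Module.End ℂ (EuclideanSpace ℂ W) :=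
  damp (prj B ∘ₗ nop X ∘ₗ prj F) (η ^ 2)

theorem spl_of {ι : Type} {X : W → W → ℂ} {Λ s η : ℝ} (hη : 0 < η) (h : FB X Λ) (F : Finset W)
    (I : Finset ι) (B B' : ι → Finset W) (hB : ∀ v ∈ I, B v ⊆ B' v)
    (hs : ∀ ξ, ∑ v ∈ I, ‖dop X F (B' v) η ξ‖ ^ 2 ≤ s * ‖ξ‖ ^ 2) : Spl X Λ s η F I B := by
  intro ξ
  set x : EuclideanSpace ℂ W := prj F (WithLp.toLp 2 ξ) with hx
  have hxn : ‖x‖ ^ 2 = nsq F ξ := prj_sq F _
  refine ⟨fun v => dop X F (B' v) η x, ?_, fun v hv ζ => ?_⟩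
  · rw [← hxn]
    exact (Finset.sum_le_sum fun v _ => nsq_le F _).trans (hs x)
  rcases F.eq_empty_or_nonempty with rfl | ⟨w0, -⟩
  · simp [nsq]
  have hΛ : 0 ≤ Λ := by
    have := h {w0} {w0} (fun _ => 1) fun _ => 1
    simp only [nsq, Finset.sum_singleton, norm_one, one_pow, Real.sqrt_one, mul_one] at this
    exact (norm_nonneg _).trans this
  set y := (prj (B' v) ∘ₗ nop X ∘ₗ prj F) (x - dop X F (B' v) η x) with hy
  have y1 : ‖y‖ ≤ η * ‖x‖ := by
    have := (damp_spec (prj (B' v) ∘ₗ nop X ∘ₗ prj F) (pow_pos hη 2) x).2.1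
    rw [← mul_pow] at this
    exact (pow_le_pow_iff_left₀ (norm_nonneg _) (by positivity) two_ne_zero).1 this
  set z : EuclideanSpace ℂ W := prj (B v) (WithLp.toLp 2 fun u => starRingEnd ℂ (ζ u)) with hz
  have z1 : ‖z‖ = √(nsq (B v) ζ) := by
    rw [hz, prj_norm]
    simp [nsq]
  have e : ∑ w ∈ F, ∑ w' ∈ B v, (ξ w - dop X F (B' v) η x w) * X w w' * ζ w' =
      (lam0 X : ℂ) * ⟪z, y⟫_ℂ := by
    rw [Finset.sum_comm, PiLp.inner_apply, Finset.mul_sum,
      ← Finset.sum_subset (Finset.subset_univ (B v))]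
    · refine Finset.sum_congr rfl fun u hu => ?_
      have k := congrArg (fun q : EuclideanSpace ℂ W => q u)
        (kop_eq X (prj F (x - dop X F (B' v) η x)))
      simp only [kop_apply, prj_apply, ite_mul, zero_mul, Finset.sum_ite_mem, Finset.univ_inter,
        PiLp.smul_apply, smul_eq_mul] at k
      simp only [hz, hy, LinearMap.comp_apply, prj_apply, if_pos hu, if_pos (hB v hv hu),
        RCLike.inner_apply, Complex.conj_conj]
      rw [← mul_assoc, ← k, ← Finset.sum_mul]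
      congr 1
      refine Finset.sum_congr rfl fun w hw => ?_
      simp [hx, prj_apply, hw]
    · intro u _ hu
      simp [hz, prj_apply, hu]
  have l0 : 0 ≤ lam0 X := norm_nonneg _
  have x1 : √(nsq F ξ) = ‖x‖ := by rw [← hxn, Real.sqrt_sq (norm_nonneg _)]
  rw [e, norm_mul, Complex.norm_real, Real.norm_of_nonneg l0, ← z1, x1]
  calc lam0 X * ‖⟪z, y⟫_ℂ‖ ≤ Λ * (‖z‖ * (η * ‖x‖)) :=
        mul_le_mul (lam0_le h hΛ) ((norm_inner_le_norm _ _).trans
          (mul_le_mul_of_nonneg_left y1 (norm_nonneg _))) (norm_nonneg _) hΛ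
    _ = _ := by ring

end Op

theorem idx_spec {j r : ℕ} {l : Option (Lt j)} {v : List (Lt j)} (h : v ∈ idx j r l) :
    v.length = r - r / 2 ∧ FreeGroup.IsReduced (v ++ l.toList) := by
  obtain ⟨h1, h2⟩ := Finset.mem_filter.1 h
  obtain ⟨f, -, rfl⟩ := Finset.mem_image.1 h1
  exact ⟨List.length_ofFn, h2⟩

theorem idx_card {j : ℕ} (hj : 1 ≤ j) (r : ℕ) (l : Option (Lt j)) :
    (idx j r l).card ≤ (2 * j) ^ r := by
  refine (Finset.card_filter_le _ _).trans (Finset.card_image_le.trans ?_)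
  simp only [Finset.card_univ, Fintype.card_fun, Fintype.card_prod, Fintype.card_fin,
    Fintype.card_bool]
  rw [mul_comm]
  exact Nat.pow_le_pow_right (by omega) (Nat.sub_le _ _)

end Prob

open Prob in
theorem pProb : StProb := by
  intro j D ρ W _ X pos inU R a l r m s hj hD hr hm hs hvis hpos
  have hj2 : (0 : ℝ) < 2 * j := by positivity
  have : NeZero D := ⟨(lt_of_lt_of_le (by positivity) hD).ne'⟩
  have : Finite {w : List (AL j D) // AV ρ w} :=
    ((List.finite_length_le (AL j D) ρ).subset fun w hw => hw.2).to_subtype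
  let _i : Fintype (Om j D ρ) := Fintype.ofFinite _
  set η : ℝ := ((2 * j : ℝ) ^ (2 * r))⁻¹ with hη
  have hη0 : 0 < η := by positivity
  let F : Om j D ρ → Finset W := fun t => Finset.univ.filter fun u => inU t a u ∧
    ∃ v, FreeGroup.IsReduced v ∧ v.length = a ∧ v.head? = l ∧
      sl (root (ext t) (pos t u)) = FreeGroup.invRev v
  let B : List (Lt j) → Om j D ρ → Finset W := fun v t =>
    Finset.univ.filter fun u => Bpl t (r / 2) v (pos t u)
  have hF : ∀ v ∈ idx j r l, ∀ t t', Rel v t t' → F t = F t' := by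
    intro v hv
    have hs : ∀ t t', Rel v t t' → F t ⊆ F t' := by
      intro t t' h u hu
      obtain ⟨h1, v0, h2, h3, h4, h5⟩ := (Finset.mem_filter.1 hu).2
      obtain ⟨-, e2, e3⟩ := hvis t t' h.vis
      have hv0 : v ≠ [] := fun e => by
        have := (idx_spec hv).1
        rw [e, List.length_nil] at this
        omega
      refine Finset.mem_filter.2 ⟨Finset.mem_univ _, e3 ▸ h1, v0, h2, h3, h4, ?_⟩
      rw [← e2, left_inv h hv0 (idx_spec hv).2 h4 h5, h5]
    exact fun t t' h => (hs t t' h).antisymm (hs t' t h.symm)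
  have hB : ∀ v ∈ idx j r l, ∀ v' ∈ idx j r l, v ≠ v' → ∀ t t', Rel v t t' →
      B v' t = B v' t' := by
    intro v hv v' hv' hne
    have hs : ∀ t t', Rel v t t' → B v' t ⊆ B v' t' := by
      intro t t' h u hu
      refine Finset.mem_filter.2 ⟨Finset.mem_univ _, ?_⟩
      rw [← (hvis t t' h.vis).2.1]
      exact Bpl_congr h hne ((idx_spec hv).1.trans (idx_spec hv').1.symm)
        (Finset.mem_filter.1 hu).2
    exact fun t t' h => (hs t t' h).antisymm (hs t' t h.symm)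
  have key := absProb (fun v t => dop (X t) (F t) (B v t) η) (idx j r l) Rel
    ((2 * j : ℝ) ^ r)⁻¹ (by positivity) ?_
    (fun v t x => (damp_spec _ (pow_pos hη0 2) x).1)
    (fun v hv v' hv' hne t t' h => by
      simp only [(hvis t t' h.vis).1, hF v hv t t' h, hB v hv v' hv' hne t t' h]) ?_ m hm s hs
    (fun t => ¬ LSpl t (X t) (pos t) (inU t) R a l r s) ?_
  · rw [Nat.card_eq_fintype_card (α := Om j D ρ)]
    refine key.trans ?_
    have : (m : ℝ) ^ m ≤ m ^ (m + 1) := pow_le_pow_right₀ (by exact_mod_cast hm) (Nat.le_succ m)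
    gcongr
  · rw [mul_inv_le_iff₀ (by positivity), one_mul]
    exact_mod_cast idx_card hj r l
  · intro v hv x hx
    let g : Om j D ρ → EuclideanSpace ℂ W := fun t => nop (X t) (prj (F t) (x t))
    have c1 : ∀ u, (D : ℝ) ^ ((r / 2 + 1) / 2) *
        ∑ t, (if Bpl t (r / 2) v (pos t u) then ‖g t u‖ ^ 2 else 0) ≤ ∑ t, ‖g t u‖ ^ 2 := fun u =>
      Bpl_count (r / 2) v (fun t => pos t u) (fun t t' h => by rw [(hvis t t' h.vis).2.1])
        (fun t => hpos t u) (fun t => ‖g t u‖ ^ 2) (fun _ => sq_nonneg _)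
        fun t t' h => by simp only [g, (hvis t t' h.vis).1, hF v hv t t' h, hx t t' h]
    have c2 : ∀ t, η ^ 2 * ‖dop (X t) (F t) (B v t) η (x t)‖ ^ 2 ≤
        ∑ u, (if Bpl t (r / 2) v (pos t u) then ‖g t u‖ ^ 2 else 0) := fun t => by
      refine (damp_spec _ (pow_pos hη0 2) (x t)).2.2.trans (le_of_eq ?_)
      rw [LinearMap.comp_apply, LinearMap.comp_apply, prj_sq, nsq, Finset.sum_filter]
    have c3 : ∀ t, ∑ u, ‖g t u‖ ^ 2 ≤ ‖x t‖ ^ 2 := fun t => by
      rw [← EuclideanSpace.norm_sq_eq]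
      exact pow_le_pow_left₀ (norm_nonneg _) ((nop_le _ _).trans (prj_le _ _)) 2
    have c4 : (D : ℝ) ^ ((r / 2 + 1) / 2) *
        (η ^ 2 * ∑ t, ‖dop (X t) (F t) (B v t) η (x t)‖ ^ 2) ≤ ∑ t, ‖x t‖ ^ 2 := by
      rw [Finset.mul_sum (a := η ^ 2)]
      refine (mul_le_mul_of_nonneg_left (Finset.sum_le_sum fun t _ => c2 t)
        (by positivity)).trans ?_
      rw [Finset.sum_comm, Finset.mul_sum]
      refine (Finset.sum_le_sum fun u _ => c1 u).trans ?_
      rw [Finset.sum_comm]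
      exact Finset.sum_le_sum fun t _ => c3 t
    have c5 : ((2 * j : ℝ) ^ r) ^ 2 ≤ (D : ℝ) ^ ((r / 2 + 1) / 2) * η ^ 2 := by
      rw [hη, inv_pow, le_mul_inv_iff₀ (by positivity), ← pow_mul, ← pow_mul, ← pow_add]
      have d1 : ((2 * j : ℝ) ^ 36) ≤ D := by exact_mod_cast hD
      refine le_trans ?_ (pow_le_pow_left₀ (by positivity) d1 _)
      rw [← pow_mul]
      refine pow_le_pow_right₀ ?_ (by omega)
      have : (1 : ℝ) ≤ j := by exact_mod_cast hj
      linarith
    rw [inv_pow, le_inv_mul_iff₀ (by positivity)]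
    rw [← mul_assoc] at c4
    exact (mul_le_mul_of_nonneg_right c5
      (Finset.sum_nonneg fun _ _ => sq_nonneg _)).trans c4
  · intro t ht
    by_contra hn
    push Not at hn
    refine ht fun Λ hΛ => spl_of hη0 hΛ _ _ _ (fun v => B v t) (fun v _ u hu => ?_) hn
    obtain ⟨-, u', y, h1, h2, h3⟩ := (Finset.mem_filter.1 hu).2
    exact Finset.mem_filter.2 ⟨Finset.mem_univ _, Bpl_of h1 h2 h3⟩

end Pool.Agent.P.MP_9167e9_an
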