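import Mathlib

/-!
PROB, abstract part: the damping operator, growth of powers of a symmetric operator and the moment
bound for a random family of contractions.
-/

noncomputable section
open scoped Classical InnerProductSpace

set_option linter.unusedSectionVars false

namespace Pool.Agent.P.MP_9167e9_an.Prob

section Damp

variable {E : Type} [NormedAddCommGroup E] [InnerProductSpace ℂ E] [FiniteDimensional ℂ E]

theorem damp_ex (Y : E →ₗ[ℂ] E) (c : ℝ) (hc : 0 < c) :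
    ∃ D : E →ₗ[ℂ] E, ∀ ζ, ‖D ζ‖ ≤ ‖ζ‖ ∧ ‖Y (ζ - D ζ)‖ ^ 2 ≤ c * ‖ζ‖ ^ 2 ∧
      c * ‖D ζ‖ ^ 2 ≤ ‖Y ζ‖ ^ 2 := by
  set G : E →ₗ[ℂ] E := (LinearMap.adjoint Y) ∘ₗ Y + (c : ℂ) • LinearMap.id with hG
  have hGin : ∀ x y, RCLike.re ⟪G x, y⟫_ℂ = RCLike.re ⟪Y x, Y y⟫_ℂ + c * RCLike.re ⟪x, y⟫_ℂ := by
    intro x y
    simp [hG, LinearMap.adjoint_inner_left]
  have hinj : Function.Injective G := by
    rw [← LinearMap.ker_eq_bot, LinearMap.ker_eq_bot']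
    intro x hx
    have h := hGin x x
    rw [hx, inner_zero_left, map_zero, inner_self_eq_norm_sq, inner_self_eq_norm_sq] at h
    have h2 : ‖x‖ ^ 2 = 0 := by nlinarith [sq_nonneg ‖x‖, sq_nonneg ‖Y x‖]
    simpa using h2
  let Ge : E ≃ₗ[ℂ] E := LinearEquiv.ofInjectiveEndo G hinj
  refine ⟨LinearMap.id - (c : ℂ) • (Ge.symm : E →ₗ[ℂ] E), fun ζ => ?_⟩
  set z0 : E := (c : ℂ) • Ge.symm ζ with hz0
  have hD : (LinearMap.id - (c : ℂ) • (Ge.symm : E →ₗ[ℂ] E) : E →ₗ[ℂ] E) ζ = ζ - z0 := by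
    simp [hz0]
  rw [hD, sub_sub_cancel]
  set d : E := ζ - z0 with hd
  have hζ : ζ = z0 + d := by simp [hd]
  have hGz : G z0 = (c : ℂ) • ζ := by
    rw [hz0, map_smul]
    congr 1
    exact Ge.apply_symm_apply ζ
  have key : ∀ y, RCLike.re ⟪Y z0, Y y⟫_ℂ = c * RCLike.re ⟪d, y⟫_ℂ := by
    intro y
    have h := hGin z0 y
    rw [hGz, inner_smul_left] at h
    have h2 : RCLike.re ⟪d, y⟫_ℂ = RCLike.re ⟪ζ, y⟫_ℂ - RCLike.re ⟪z0, y⟫_ℂ := by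
      rw [hd, inner_sub_left, map_sub]
    rw [h2]
    simp at h ⊢
    linarith
  have k1 := key z0
  have k2 := key d
  rw [inner_self_eq_norm_sq] at k1 k2
  have e1 : ‖ζ‖ ^ 2 = ‖z0‖ ^ 2 + 2 * RCLike.re ⟪d, z0⟫_ℂ + ‖d‖ ^ 2 := by
    rw [hζ, norm_add_sq (𝕜 := ℂ), inner_re_symm]
  have e2 : ‖Y ζ‖ ^ 2 = ‖Y z0‖ ^ 2 + 2 * RCLike.re ⟪Y z0, Y d⟫_ℂ + ‖Y d‖ ^ 2 := by
    rw [hζ, map_add, norm_add_sq (𝕜 := ℂ)]
  have p1 : 0 ≤ RCLike.re ⟪d, z0⟫_ℂ := by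
    by_contra hn
    push Not at hn
    nlinarith [sq_nonneg ‖Y z0‖]
  refine ⟨?_, ?_, ?_⟩
  · have : ‖d‖ ^ 2 ≤ ‖ζ‖ ^ 2 := by nlinarith [sq_nonneg ‖z0‖]
    exact (pow_le_pow_iff_left₀ (norm_nonneg _) (norm_nonneg _) two_ne_zero).1 this
  · nlinarith [sq_nonneg ‖z0‖, sq_nonneg ‖d‖]
  · nlinarith [sq_nonneg ‖Y z0‖, sq_nonneg ‖Y d‖, sq_nonneg ‖d‖]

/-- The damping operator of `Y` at level `c`. -/
def damp (Y : E →ₗ[ℂ] E) (c : ℝ) : E →ₗ[ℂ] E :=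
  if h : 0 < c then (damp_ex Y c h).choose else 0

theorem damp_spec (Y : E →ₗ[ℂ] E) {c : ℝ} (hc : 0 < c) (ζ : E) :
    ‖damp Y c ζ‖ ≤ ‖ζ‖ ∧ ‖Y (ζ - damp Y c ζ)‖ ^ 2 ≤ c * ‖ζ‖ ^ 2 ∧
      c * ‖damp Y c ζ‖ ^ 2 ≤ ‖Y ζ‖ ^ 2 := by
  rw [damp, dif_pos hc]
  exact (damp_ex Y c hc).choose_spec ζ

omit [FiniteDimensional ℂ E] in
theorem pow_grow (S : Module.End ℂ E) (hS : ∀ x y, ⟪S x, y⟫_ℂ = ⟪x, S y⟫_ℂ) (s : ℝ) (hs : 0 ≤ s)
    (m : ℕ) : ∀ ξ : E, s * ‖ξ‖ ≤ ‖S ξ‖ → s ^ m * ‖ξ‖ ≤ ‖(S ^ m) ξ‖ := by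
  induction m with
  | zero => intro ξ _; simp
  | succ m ih =>
    intro ξ h
    have h1 : ‖S ξ‖ * ‖S ξ‖ ≤ ‖ξ‖ * ‖S (S ξ)‖ := by
      have := norm_inner_le_norm (𝕜 := ℂ) ξ (S (S ξ))
      rw [← hS, inner_self_eq_norm_sq_to_K] at this
      simpa [sq] using this
    have h2 : s * ‖S ξ‖ ≤ ‖S (S ξ)‖ := by
      rcases (norm_nonneg ξ).eq_or_lt with h0 | h0
      · have : ξ = 0 := by simpa using h0.symm
        simp [this]
      · refine le_of_mul_le_mul_left ?_ h0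
        nlinarith [norm_nonneg (S ξ)]
    have h3 := ih (S ξ) h2
    rw [pow_succ S, Module.End.mul_apply, pow_succ]
    have h4 : 0 ≤ s ^ m := pow_nonneg hs m
    nlinarith

theorem adj_le (D : E →ₗ[ℂ] E) (hD : ∀ x, ‖D x‖ ≤ ‖x‖) (y : E) :
    ‖LinearMap.adjoint D y‖ ≤ ‖y‖ := by
  set z := LinearMap.adjoint D y with hz
  have h1 : ‖z‖ * ‖z‖ ≤ ‖y‖ * ‖D z‖ := by
    have := norm_inner_le_norm (𝕜 := ℂ) y (D z)
    rw [← LinearMap.adjoint_inner_left, ← hz, inner_self_eq_norm_sq_to_K] at this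
    simpa [sq] using this
  rcases (norm_nonneg z).eq_or_lt with h0 | h0
  · rw [← h0]; exact norm_nonneg _
  · refine le_of_mul_le_mul_left ?_ h0
    nlinarith [hD z, norm_nonneg y]

end Damp

section Fam

variable {Ω E ι : Type} [Fintype Ω] [NormedAddCommGroup E] [NormedSpace ℂ E]

/-- The `L²` norm of a family of vectors. -/
def nF (x : Ω → E) : ℝ := ‖(WithLp.toLp 2 x : PiLp 2 fun _ : Ω => E)‖

theorem nF_nonneg (x : Ω → E) : 0 ≤ nF x := norm_nonneg _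

theorem nF_sq (x : Ω → E) : nF x ^ 2 = ∑ t, ‖x t‖ ^ 2 := by
  rw [nF, PiLp.norm_sq_eq_of_L2]

theorem nF_le {x y : Ω → E} {ν : ℝ} (hν : 0 ≤ ν)
    (h : ∑ t, ‖x t‖ ^ 2 ≤ ν ^ 2 * ∑ t, ‖y t‖ ^ 2) : nF x ≤ ν * nF y := by
  rw [← nF_sq, ← nF_sq, ← mul_pow] at h
  exact (pow_le_pow_iff_left₀ (nF_nonneg _) (mul_nonneg hν (nF_nonneg _)) two_ne_zero).1 h

theorem nF_sum (I : Finset ι) (x : ι → Ω → E) :
    nF (fun t => ∑ v ∈ I, x v t) ≤ ∑ v ∈ I, nF (x v) := by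
  have h : (WithLp.toLp 2 (fun t => ∑ v ∈ I, x v t) : PiLp 2 fun _ : Ω => E) =
      ∑ v ∈ I, (WithLp.toLp 2 (x v) : PiLp 2 fun _ : Ω => E) := by
    rw [← WithLp.toLp_sum]
    congr 1
    funext t
    simp
  rw [nF, h]
  exact norm_sum_le _ _

theorem fam (A : ι → Ω → Module.End ℂ E) (I : Finset ι) (Rel : ι → Ω → Ω → Prop) (ν : ℝ)
    (hν : 0 ≤ ν) (hI : I.card * ν ≤ 1) (h1 : ∀ v t x, ‖A v t x‖ ≤ ‖x‖)
    (h2 : ∀ v ∈ I, ∀ v' ∈ I, v ≠ v' → ∀ t t', Rel v t t' → A v' t = A v' t')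
    (h3 : ∀ v ∈ I, ∀ x : Ω → E, (∀ t t', Rel v t t' → x t = x t') →
      ∑ t, ‖A v t (x t)‖ ^ 2 ≤ ν ^ 2 * ∑ t, ‖x t‖ ^ 2) (m : ℕ) :
    ∀ (T : Finset ι) (x : Ω → E), (∀ v ∈ I, v ∉ T → ∀ t t', Rel v t t' → x t = x t') →
      nF (fun t => ((∑ v ∈ I, A v t) ^ m) (x t)) ≤ ((T.card + m : ℕ) : ℝ) ^ m * nF x := by
  induction m with
  | zero => intro T x _; simp
  | succ m ih =>
    intro T x hx
    have e : (fun t => ((∑ v ∈ I, A v t) ^ (m + 1)) (x t)) =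
        fun t => ∑ v ∈ I, ((∑ v ∈ I, A v t) ^ m) (A v t (x t)) := by
      funext t
      rw [pow_succ, Module.End.mul_apply, LinearMap.sum_apply, map_sum]
    rw [e]
    refine (nF_sum I _).trans ?_
    set M : ℝ := ((T.card + (m + 1) : ℕ) : ℝ) with hM
    have hM0 : 0 ≤ M ^ m := by positivity
    have hv : ∀ v ∈ I, nF (fun t => ((∑ v ∈ I, A v t) ^ m) (A v t (x t))) ≤
        M ^ m * (((if v ∈ T then 1 else 0) + ν) * nF x) := by
      intro v hv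
      have a1 := ih (insert v T) (fun t => A v t (x t)) (by
        intro v' hv' hn t t' hr
        rw [Finset.mem_insert, not_or] at hn
        simp only [h2 v' hv' v hv hn.1 t t' hr, hx v' hv' hn.2 t t' hr])
      have a2 : (((insert v T).card + m : ℕ) : ℝ) ^ m ≤ M ^ m := by
        refine pow_le_pow_left₀ (by positivity) ?_ m
        rw [hM]
        have := Finset.card_insert_le v T
        exact_mod_cast (by omega)
      have a3 : nF (fun t => A v t (x t)) ≤ ((if v ∈ T then 1 else 0) + ν) * nF x := by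
        by_cases hT : v ∈ T
        · rw [if_pos hT]
          have : nF (fun t => A v t (x t)) ≤ 1 * nF x := by
            refine nF_le zero_le_one ?_
            rw [one_pow, one_mul]
            exact Finset.sum_le_sum fun t _ => pow_le_pow_left₀ (norm_nonneg _) (h1 v t _) 2
          nlinarith [nF_nonneg x]
        · rw [if_neg hT, zero_add]
          exact nF_le hν (h3 v hv x (hx v hv hT))
      exact a1.trans (mul_le_mul a2 a3 (nF_nonneg _) hM0)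
    refine (Finset.sum_le_sum hv).trans ?_
    rw [← Finset.mul_sum, ← Finset.sum_mul, pow_succ, mul_assoc]
    refine mul_le_mul_of_nonneg_left (mul_le_mul_of_nonneg_right ?_ (nF_nonneg _)) hM0
    rw [Finset.sum_add_distrib, Finset.sum_boole, Finset.sum_const, nsmul_eq_mul, hM]
    have c1 : (I.filter (· ∈ T)).card ≤ T.card :=
      Finset.card_le_card fun v hv => (Finset.mem_filter.1 hv).2
    have c2 : ((I.filter (· ∈ T)).card : ℝ) ≤ T.card := by exact_mod_cast c1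
    push_cast
    linarith [(Nat.cast_nonneg m : (0 : ℝ) ≤ m)]

end Fam

theorem absProb {Ω W ι : Type} [Fintype Ω] [Fintype W]
    (D : ι → Ω → Module.End ℂ (EuclideanSpace ℂ W)) (I : Finset ι) (Rel : ι → Ω → Ω → Prop)
    (ν : ℝ) (hν : 0 ≤ ν) (hI : I.card * ν ≤ 1) (h1 : ∀ v t x, ‖D v t x‖ ≤ ‖x‖)
    (h2 : ∀ v ∈ I, ∀ v' ∈ I, v ≠ v' → ∀ t t', Rel v t t' → D v' t = D v' t')
    (h3 : ∀ v ∈ I, ∀ x : Ω → EuclideanSpace ℂ W, (∀ t t', Rel v t t' → x t = x t') →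
      ∑ t, ‖D v t (x t)‖ ^ 2 ≤ ν ^ 2 * ∑ t, ‖x t‖ ^ 2)
    (m : ℕ) (hm : 1 ≤ m) (s : ℝ) (hs : 0 < s) (bad : Ω → Prop)
    (hbad : ∀ t, bad t → ∃ ξ, s * ‖ξ‖ ^ 2 < ∑ v ∈ I, ‖D v t ξ‖ ^ 2) :
    (Nat.card {t // bad t} : ℝ) * s ^ m ≤ Fintype.card Ω * (Fintype.card W * (m : ℝ) ^ m) := by
  let A : ι → Ω → Module.End ℂ (EuclideanSpace ℂ W) :=
    fun v t => LinearMap.adjoint (D v t) ∘ₗ D v t
  have hA : ∀ v t x, ‖A v t x‖ ≤ ‖D v t x‖ := fun v t x => adj_le _ (h1 v t) _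
  have hf := fam A I Rel ν hν hI (fun v t x => (hA v t x).trans (h1 v t x))
    (fun v hv v' hv' hne t t' hr => by simp only [A, h2 v hv v' hv' hne t t' hr])
    (fun v hv x hx => (Finset.sum_le_sum fun t _ =>
      pow_le_pow_left₀ (norm_nonneg _) (hA v t _) 2).trans (h3 v hv x hx)) m ∅
  set M : ℝ := (m : ℝ) ^ m with hM
  have hM0 : 0 < M := by positivity
  let e : W → EuclideanSpace ℂ W := fun w => EuclideanSpace.single w 1
  have hw : ∀ w : W, ∑ t, ‖((∑ v ∈ I, A v t) ^ m) (e w)‖ ≤ Fintype.card Ω * M := by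
    intro w
    have a1 := hf (fun _ => e w) (fun _ _ _ _ _ _ => rfl)
    have a2 := pow_le_pow_left₀ (nF_nonneg _) a1 2
    rw [mul_pow, nF_sq, nF_sq] at a2
    simp only [Finset.card_empty, zero_add, e, PiLp.norm_single, norm_one, one_pow,
      Finset.sum_const, Finset.card_univ, nsmul_eq_mul, mul_one, ← hM] at a2
    have a3 : ∀ t, 2 * M * ‖((∑ v ∈ I, A v t) ^ m) (e w)‖ ≤
        ‖((∑ v ∈ I, A v t) ^ m) (e w)‖ ^ 2 + M ^ 2 := fun t => by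
      nlinarith [sq_nonneg (‖((∑ v ∈ I, A v t) ^ m) (e w)‖ - M)]
    have a4 := Finset.sum_le_sum (s := Finset.univ) fun t _ => a3 t
    rw [← Finset.mul_sum, Finset.sum_add_distrib, Finset.sum_const, Finset.card_univ,
      nsmul_eq_mul] at a4
    refine le_of_mul_le_mul_left ?_ (by positivity : 0 < 2 * M)
    simp only [e] at a4 ⊢
    nlinarith
  have hb : ∀ t, bad t → s ^ m ≤ ∑ w, ‖((∑ v ∈ I, A v t) ^ m) (e w)‖ := by
    intro t ht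
    obtain ⟨ξ, hξ⟩ := hbad t ht
    set S := ∑ v ∈ I, A v t with hS
    have hsym : ∀ x y, ⟪S x, y⟫_ℂ = ⟪x, S y⟫_ℂ := by
      intro x y
      simp only [hS, LinearMap.sum_apply, sum_inner, inner_sum, A, LinearMap.comp_apply,
        LinearMap.adjoint_inner_left, LinearMap.adjoint_inner_right]
    have hq : ∑ v ∈ I, ‖D v t ξ‖ ^ 2 = RCLike.re ⟪S ξ, ξ⟫_ℂ := by
      simp only [hS, LinearMap.sum_apply, sum_inner, A, LinearMap.comp_apply,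
        LinearMap.adjoint_inner_left, map_sum, inner_self_eq_norm_sq]
    have hq2 : RCLike.re ⟪S ξ, ξ⟫_ℂ ≤ ‖S ξ‖ * ‖ξ‖ := re_inner_le_norm _ _
    have hξ0 : 0 < ‖ξ‖ := by
      rcases (norm_nonneg ξ).eq_or_lt with h0 | h0
      · rw [hq] at hξ
        rw [← h0] at hξ hq2
        nlinarith
      · exact h0
    have g1 : s * ‖ξ‖ ≤ ‖S ξ‖ := by
      refine le_of_mul_le_mul_right ?_ hξ0
      nlinarith
    have g2 := pow_grow S hsym s hs.le m ξ g1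
    have g3 : ξ = ∑ w, ξ w • e w := by
      ext w
      simp [e, Pi.single_apply]
    have g4 : ‖(S ^ m) ξ‖ ≤ (∑ w, ‖(S ^ m) (e w)‖) * ‖ξ‖ := by
      conv_lhs => rw [g3, map_sum]
      refine (norm_sum_le _ _).trans ?_
      rw [Finset.sum_mul]
      refine Finset.sum_le_sum fun w _ => ?_
      rw [map_smul, norm_smul, mul_comm]
      exact mul_le_mul_of_nonneg_left (PiLp.norm_apply_le ξ w) (norm_nonneg _)
    exact le_of_mul_le_mul_right (g2.trans g4) hξ0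
  rw [Nat.card_eq_fintype_card, Fintype.card_subtype]
  calc ((Finset.univ.filter bad).card : ℝ) * s ^ m = ∑ _t ∈ Finset.univ.filter bad, s ^ m := by
        rw [Finset.sum_const, nsmul_eq_mul]
    _ ≤ ∑ t ∈ Finset.univ.filter bad, ∑ w, ‖((∑ v ∈ I, A v t) ^ m) (e w)‖ :=
        Finset.sum_le_sum fun t ht => hb t (Finset.mem_filter.1 ht).2
    _ ≤ ∑ t, ∑ w, ‖((∑ v ∈ I, A v t) ^ m) (e w)‖ :=
        Finset.sum_le_sum_of_subset_of_nonneg (Finset.filter_subset _ _)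
          fun t _ _ => Finset.sum_nonneg fun w _ => norm_nonneg _
    _ = ∑ w, ∑ t, ‖((∑ v ∈ I, A v t) ^ m) (e w)‖ := Finset.sum_comm
    _ ≤ ∑ _w : W, Fintype.card Ω * M := Finset.sum_le_sum fun w _ => hw w
    _ = _ := by rw [Finset.sum_const, Finset.card_univ, nsmul_eq_mul]; ring

end Pool.Agent.P.MP_9167e9_an.Prob
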